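import Pool.Agent.Y102.V15

set_option autoImplicit false

/-!
# The period conjecture for cycles on all powers of the Kuga-Satake varieties of K3 surfaces:
# de Rham-Betti classes are Hodge classes if the Hodge group is a spin group of rank different from
# five

Let `A` be an abelian variety over the field `ℚ̄` of algebraic numbers. As in `MaximalRealMult` and
`OneClassDecides` the de Rham-Betti classes on the powers of `A` are considered as multilinear forms
`φ` with rational values in `2m` variables in `H_1(A, ℚ)` (elements of `H^1(A) ^ {⊗ 2m} (m)`), and
nothing is assumed about periods: `AbVar` is the description of an abelian variety over `ℚ̄` by theta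
functions.

Let `𝔤` be the Lie algebra of the endomorphisms of `H_1(A, ℚ)` that annihilate all classes which are at
the same time Hodge classes and de Rham-Betti classes (`InLie`). By the theorem of Deligne all Hodge
classes are de Rham-Betti classes, so that `𝔤` is the Lie algebra of the Hodge group of `A`.

**Theorem.** Assume that `𝔤 ⊗ ℂ` is a sum of `k` orthogonal Lie algebras `so(r)` with `r ≥ 3` and
`r ≠ 5` which acts on `H_1(A, ℂ)` by tensor products of spin representations (`TypeSpin`). Then all
de Rham-Betti classes in `H^1(A) ^ {⊗ 2m} (m)` are Hodge classes, for all `m`.

The hypothesis is expressed by the generators of a Clifford algebra: there are endomorphisms `E_i` of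
`H_1(A, ℂ)`, `1 ≤ i ≤ N = k r`, with `E_i² = 1`, `E_i E_j = - E_j E_i`, and each of them has one of `k`
colours, each colour is used `r` times, and `𝔤 ⊗ ℂ` is spanned by the products `E_i E_j` of two
different generators of the same colour.

## Kuga-Satake varieties

Let `T` be a polarised Hodge structure of K3 type over `ℚ` (the transcendental lattice of a K3 surface,
of a hyperkähler variety, of a cubic fourfold, or of an abelian surface) whose field `F` of
endomorphisms is totally real, for example equal to `ℚ` (this is the general case; otherwise `F` is a
CM field), and let `r` be the dimension of `T` over `F`. By the theorem of Zarhin the Hodge group of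
`T` is the restriction of scalars of `SO_F(T)`, and `T ⊗ ℂ` is the orthogonal sum of the `k = [F : ℚ]`
spaces `T_σ` of dimension `r`. The first homology of the Kuga-Satake variety `A` of `T` is the even
Clifford algebra `C⁺(T)`, and the Lie algebra of its Hodge group is the Lie algebra of the Hodge group
of `T` acting by left multiplication. Let `e_1, …, e_N` be an orthonormal basis of `T ⊗ ℂ` made of
orthonormal bases of the `T_σ`, and let `E_i` be the endomorphism `x ↦ e_i x e_1` of `C⁺(T ⊗ ℂ)`.
Then `E_i² = 1`, `E_i E_j` is the left multiplication by `e_i e_j`, and the hypothesis is satisfied if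
`r ≠ 5` (`r` is never smaller than three). The same holds for the Kuga-Satake variety of a larger
lattice (for example the primitive cohomology), which is isogenous to a power of `A`.

So for all K3 surfaces `X` over `ℚ̄` whose field `F` of endomorphisms is totally real and such that the
rank of `T` over `F` is not five, all de Rham-Betti classes on all powers of the Kuga-Satake variety
of `X` are Hodge classes. By the theorems of Deligne and André the Kuga-Satake correspondence is
motivated, and so all de Rham-Betti classes on all powers of `X` itself are Hodge classes, and
motivated. If `F = ℚ` this means that the tensors of degree `n` in `T(1)` which are de Rham-Betti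
classes are the invariants of `SO(T)`; if `n` is smaller than the rank of `T`, they are the linear
combinations of products of the intersection form by the first fundamental theorem of invariant
theory, and so they are algebraic: we have `GPC ^ k (X ^ n)` for all `k` and all `n < rank T`.

The cases where `r` is three or four, or `k = 1` and `r = 6`, are also contained in
`OneClassDecides`, the others are not. For `r = 5` there is a subalgebra `sl(2)` of `so(5) = sp(4)`
which acts on the spin representation by the third symmetric power, with the same commutant.

## Proof

By the theorem of Schneider and Lang (all subobjects of the de Rham-Betti object `H_1(A)` are abelian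
subvarieties) the Lie algebra `𝔥` of the endomorphisms that annihilate all de Rham-Betti classes is a
subalgebra of `𝔤` which acts semisimply on `H_1(A, ℚ)` and has the same commutant. So the following
statement is needed, which seems to be new: let `𝔥` be a Lie subalgebra of the span of the `E_i E_j`
(`i ≠ j` of the same colour) on a finite dimensional space over `ℂ` such that the associative algebra
generated by `𝔥` contains all these `E_i E_j`; if each colour is used at least six times, then `𝔥`
is the whole span (`SP.main_col`). For one colour: a Lie subalgebra of `so(n)`, `n ≥ 6`, which
generates the even Clifford algebra is `so(n)`. The proof considers the weights of the standard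
representation and of the spin representations of `so(n)` for a Cartan subalgebra of `𝔥`: the spin
representations are irreducible for `𝔥`, and so the vectors whose weights are close to the highest
weight (for a generic ordering) are obtained from the highest weight vector by root vectors of `𝔥`;
therefore the sums and the differences of the smallest positive weights of the standard representation
are roots of `𝔥`, and one obtains all roots of `so(n)` by changing the ordering. For several colours
one uses in addition the lemmas of Goursat and Ribet: the parts of two colours cannot be isomorphic
by an isomorphism compatible with `𝔥`, since the spin representations of both parts occur in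
`H_1(A, ℂ)` at the same time, as factors of a tensor product which is irreducible for `𝔥`. For the
sizes three and four one uses the theorem for type `A_1`.
-/

open Module Matrix Pool.Agent.Y102 Pool.Agent.W516.DR Pool.Agent.H204R3.GP

noncomputable section

namespace Pool.Agent.Results.MP_bf54cf_ag.KugaSatake

variable {g : ℕ} (A : AbVar g)

/-- The multilinear forms in `2m` variables in the rational homology. -/
abbrev Form (m : ℕ) : Type := MultilinearMap ℚ (fun _ : Fin m × Fin 2 => A.H1) ℚ

/-- `φ` is a de Rham-Betti class in `H^1(A) ^ {⊗ 2m} (m)`. -/
def IsDRB {m : ℕ} (φ : Form A m) : Prop :=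
  IsDeRhamBettiForm QBar A.dR (2 * Real.pi * Complex.I) m φ

/-- `φ` is a Hodge class in `H^1(A) ^ {⊗ 2m} (m)`. -/
def IsHodge {m : ℕ} (φ : Form A m) : Prop := IsHodgeTensor (A.per : A.H1 →+ (Fin g → ℂ)) φ

/-- The endomorphism `X` annihilates the form `φ` (as a derivation). -/
def Annihilates {m : ℕ} (X : Module.End ℚ A.H1) (φ : Form A m) : Prop :=
  ∀ v, ∑ k, φ (Function.update v k (X (v k))) = 0

/-- `X` is in the Lie algebra `𝔤`: it annihilates all classes that are Hodge classes and
de Rham-Betti classes. -/
def InLie (X : Module.End ℚ A.H1) : Prop :=
  ∀ (m : ℕ) (φ : Form A m), IsHodge A φ → IsDRB A φ → Annihilates A X φ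

/-- The algebra of the endomorphisms of `H_1(A, ℂ)`, as matrices for the basis of the lattice. -/
abbrev EndC (_ : AbVar g) : Type := Matrix (Fin (2 * g)) (Fin (2 * g)) ℂ

/-- The matrix of the extension of an endomorphism of `H_1(A, ℚ)` to `H_1(A, ℂ)`. -/
def toC (X : Module.End ℚ A.H1) : EndC A := Matrix.of fun i j => (X (Pi.single j 1) i : ℂ)

/-- The complex Lie algebra `𝔤 ⊗ ℂ`, acting on `H_1(A, ℂ)`. -/
def lieC : Submodule ℂ (EndC A) := Submodule.span ℂ {Y | ∃ X, InLie A X ∧ Y = toC A X}

/-- The `E i` are the generators of a Clifford algebra acting on `H_1(A, ℂ)`. -/
def Clifford {N : ℕ} (E : Fin N → EndC A) : Prop :=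
  (∀ i, E i * E i = 1) ∧ ∀ i j, i ≠ j → E i * E j = -(E j * E i)

/-- Every colour `σ` is the colour `c j` of exactly `r` of the `j`. -/
def Uniform {N k : ℕ} (c : Fin N → Fin k) (r : ℕ) : Prop :=
  ∀ σ, (Finset.univ.filter fun j => c j = σ).card = r

/-- The Lie algebra `𝔤 ⊗ ℂ` is a sum of `k` orthogonal Lie algebras `so(r)`, acting by spin
representations, and `r` is at least three and not five. -/
def TypeSpin : Prop :=
  ∃ (N k r : ℕ) (E : Fin N → EndC A) (c : Fin N → Fin k), 3 ≤ r ∧ r ≠ 5 ∧ Clifford A E ∧
    Uniform c r ∧ lieC A = Submodule.span ℂ {Y | ∃ i j, i ≠ j ∧ c i = c j ∧ Y = E i * E j}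

/-- **All de Rham-Betti classes are Hodge classes for abelian varieties of spin type.** -/
theorem result (g : ℕ) (A : AbVar g) (h : TypeSpin A) (m : ℕ) (φ : Form A m) (hφ : IsDRB A φ) :
    IsHodge A φ := by
  obtain ⟨N, k, r, E, c, h3, h5, ⟨e1, e2⟩, hc, hl⟩ := h
  exact A.hodge_of_spinMat h3 h5 e1 e2 hc hl hφ

end Pool.Agent.Results.MP_bf54cf_ag.KugaSatake
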