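import Pool.Agent.Y102.AV12

set_option autoImplicit false

/-!
# The period conjecture for cycles on all powers of abelian varieties with maximal real
# multiplication

Let `A` be an abelian variety of dimension `g` over the field `ℚ̄` of algebraic numbers. We consider
the conjecture `GPC ^ k (A ^ n)` for all `n` and all `k`: all de Rham-Betti classes, that is all
elements of `H^{2k}_dR(A ^ n / ℚ̄) ∩ H^{2k}(A ^ n, ℚ(k))`, are rational linear combinations of classes
of algebraic cycles.

The space `H^{2k}(A ^ n)` is a direct summand of a sum of copies of the tensor power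
`H^1(A) ^ {⊗ 2k}`, so we consider the elements of `H^1(A, ℚ) ^ {⊗ 2m}`, that is the multilinear forms
`φ` with rational values, in `2m` variables in `H_1(A, ℚ)`, such that `(2 π i) ^ m φ` is a linear
combination with algebraic coefficients of the tensor products of the elements of
`H^1_dR(A / ℚ̄)` (`IsDeRhamBettiForm`). We prove that all of them are linear combinations of products
of `m` bilinear forms which are Hodge classes (`IsProductOfHodgeBilinear`); by the theorem of
Lefschetz the Hodge classes of degree two are classes of divisors. Nothing is assumed about periods: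
the proof uses the theorem of Schneider and Lang (proved in this repository) for the theta functions
of `A`, and the only input is the analytic description `AbVar` of an abelian variety over `ℚ̄`
(see `Pool/Agent/Y102/AVDefs.lean`, where it is explained why every abelian variety has it).

The abelian varieties which we consider are those with *maximal real multiplication*: with `g`
commuting, linearly independent endomorphisms which are symmetric for a polarization. These are the
abelian varieties whose simple factors `B` over `ℚ̄` have real multiplication by a totally real field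
of degree `dim B`, or multiplication by a totally indefinite quaternion algebra over a totally real
field of degree `dim B / 2` (so all non-CM abelian varieties of `GL(2)`-type), or complex
multiplication by a CM field of degree `2 dim B`.

1. The conclusion holds for `A` if the central endomorphisms of `A` which are skew-symmetric for the
   polarization have only trivial relations between their eigenvalues (`OnlyTrivialRelations`): for
   all such `X` which generate all others (it suffices to consider those), all linear relations with
   integral coefficients between the roots of the minimal polynomial of `X` are consequences of the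
   relations `z + (-z) = 0`. There is no condition if there are no simple factors with complex
   multiplication.
2. In particular it holds if the simple factors with complex multiplication are elliptic curves
   (`ImaginaryQuadraticCM`). The `R j` are square roots of negative integers in the centre of the
   algebra of endomorphisms, one for each isogeny class of elliptic curves with complex
   multiplication. The Jacobians `J_1(N)` (by theorems of Shimura and Ribet) and all products of
   elliptic curves are examples.
3. In particular it holds for all simple abelian surfaces over `ℚ̄` which have Picard number at least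
   two, that is for which some alternating de Rham-Betti class of degree two is not a multiple of the
   polarization; so for real, quaternionic and complex multiplication.

Here the endomorphisms are those of the de Rham-Betti object `H_1(A)`; the endomorphisms of the
abelian variety are examples, and there are no others up to isogeny by the theorem of Bost (which is
also proved in this repository, see `Pool.Agent.Y102.AbVar.hodge_end`).
-/

open Module Polynomial Pool.Agent.Y102 Pool.Agent.W516.DR Pool.Agent.H204R3.GP

noncomputable section

namespace Pool.Agent.Results.MP_bf54cf_ag.MaximalRealMult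

variable {g : ℕ} (A : AbVar g)

/-- The Riemann form of the polarization, on the rational homology. -/
def rf (u v : A.H1) : ℂ := riemannForm A.lam A.η (A.per u) (A.per v)

/-- `Q` is an endomorphism of the de Rham-Betti object: it respects `H^1_dR(A / ℚ̄)`. -/
def IsEnd (Q : Module.End ℚ A.H1) : Prop := IsDeRhamBettiEnd QBar A.dR Q

/-- `A` has `g` commuting linearly independent symmetric endomorphisms. -/
def MaximalRM : Prop := ∃ P : Fin g → Module.End ℚ A.H1, (∀ i, IsEnd A (P i)) ∧
  (∀ i j, P i * P j = P j * P i) ∧ (∀ i u v, rf A (P i u) v = rf A u (P i v)) ∧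
  LinearIndependent ℚ P

/-- `X` is an element of the centre of the algebra of endomorphisms and is skew-symmetric. -/
def CentralSkew (X : Module.End ℚ A.H1) : Prop := IsEnd A X ∧
  (∀ Q, IsEnd A Q → X * Q = Q * X) ∧ ∀ u v, rf A (X u) v = -rf A u (X v)

/-- The roots of the minimal polynomial of `X` satisfy only trivial relations. -/
def TrivialRelations (X : Module.End ℚ A.H1) : Prop :=
  ∀ n : ℂ →₀ ℤ, (∀ z ∈ n.support, aeval z (minpoly ℚ X) = 0) →
    n.sum (fun z k => (k : ℂ) * z) = 0 → ∀ z, n z = n (-z)

/-- All central skew-symmetric endomorphisms are in the bicommutant of `X`. -/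
def Generates (X : Module.End ℚ A.H1) : Prop :=
  ∀ T : Module.End ℚ A.H1, T * X = X * T → ∀ R, CentralSkew A R → T * R = R * T

/-- The generating central skew-symmetric endomorphisms satisfy only trivial relations. -/
def OnlyTrivialRelations : Prop := ∀ X, CentralSkew A X → Generates A X → TrivialRelations A X

/-- The central skew-symmetric endomorphisms are the linear combinations of endomorphisms `R j`
such that `(R j) ^ 3 = - (d j) R j` and `(R i) (R j) = 0` for `i ≠ j`, for positive rational numbers
`d j` in different classes modulo squares. -/
def ImaginaryQuadraticCM : Prop :=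
  ∃ (r : ℕ) (R : Fin r → Module.End ℚ A.H1) (d : Fin r → ℚ),
    (∀ j, 0 < d j ∧ R j * R j * R j = -(d j • R j)) ∧
    (∀ i j, i ≠ j → R i * R j = 0 ∧ ¬ IsSquare (d i * d j)) ∧
    ∀ X, CentralSkew A X → X ∈ Submodule.span ℚ (Set.range R)

/-- There are no proper nonzero subobjects. -/
def IsSimple : Prop := ∀ U, IsDeRhamBettiSubspace QBar A.dR U → U = ⊥ ∨ U = ⊤

/-- Some alternating de Rham-Betti class of degree two is not a multiple of the Riemann form. -/
def PicardAtLeastTwo : Prop := ∃ B : A.H1 →ₗ[ℚ] A.H1 →ₗ[ℚ] ℚ, (∀ u v, B u v = -B v u) ∧
  IsDeRhamBettiBilinear QBar A.dR (2 * Real.pi * Complex.I) B ∧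
    ∀ c : ℚ, ∃ u v, (B u v : ℂ) ≠ c * rf A u v

/-- The de Rham-Betti classes in all `H^1(A) ^ {⊗ 2m} (m)` are linear combinations of products of
Hodge classes of degree two. -/
def AllDRBDivisorial : Prop :=
  ∀ (m : ℕ) (φ : MultilinearMap ℚ (fun _ : Fin m × Fin 2 => A.H1) ℚ),
    IsDeRhamBettiForm QBar A.dR (2 * Real.pi * Complex.I) m φ →
      φ ∈ Submodule.span ℚ {ψ | IsProductOfHodgeBilinear (A.per : A.H1 →+ (Fin g → ℂ)) ψ}

/-- **De Rham-Betti classes on the powers of abelian varieties with maximal real multiplication.** -/
theorem result :
    -- 1
    (∀ (g : ℕ) (A : AbVar g), MaximalRM A → OnlyTrivialRelations A → AllDRBDivisorial A) ∧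
    -- 2
    (∀ (g : ℕ) (A : AbVar g), MaximalRM A → ImaginaryQuadraticCM A → AllDRBDivisorial A) ∧
    -- 3
    (∀ A : AbVar 2, IsSimple A → PicardAtLeastTwo A → AllDRBDivisorial A) := by
  have hsym : ∀ {g : ℕ} (A : AbVar g) (P : Module.End ℚ A.H1),
      (∀ u v, rf A (P u) v = rf A u (P v)) → ∀ u v, A.om (P u) v = A.om u (P v) := by
    intro g A P h u v
    have h1 := h u v
    unfold rf at h1
    rw [AbVar.rf_eq, AbVar.rf_eq] at h1
    exact_mod_cast h1
  have hcs : ∀ {g : ℕ} (A : AbVar g) (X : Module.End ℚ A.H1), CentralSkew A X ↔ X ∈ A.ZA := by
    intro g A X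
    constructor
    · rintro ⟨h1, h2, h3⟩
      refine ⟨A.mem_EA.2 h1, fun u v => ?_, fun Q hQ => h2 Q (A.mem_EA.1 hQ)⟩
      have h4 := h3 u v
      unfold rf at h4
      rw [AbVar.rf_eq, AbVar.rf_eq] at h4
      have h5 : A.om (X u) v = -A.om u (X v) := by exact_mod_cast h4
      linear_combination h5
    · rintro ⟨h1, h2, h3⟩
      refine ⟨A.mem_EA.1 h1, fun Q hQ => h3 Q (A.mem_EA.2 hQ), fun u v => ?_⟩
      unfold rf
      rw [AbVar.rf_eq, AbVar.rf_eq]
      have h5 : A.om (X u) v = -A.om u (X v) := by linear_combination h2 u v
      exact_mod_cast h5
  refine ⟨?_, ?_, ?_⟩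
  · rintro g A ⟨P, hP, hcomm, hs, hli⟩ hrel m φ hφ
    refine A.lef_sub (A.products_of_rel P hP hcomm (fun i => hsym A _ (hs i)) hli
      (fun X hX hT => ?_) φ hφ)
    exact oddRel_of_finsupp (hrel X ((hcs A X).2 hX) fun T hTX R hR => hT T hTX R ((hcs A R).1 hR))
  · rintro g A ⟨P, hP, hcomm, hs, hli⟩ ⟨r, R, d, hd, hR, hspan⟩ m φ hφ
    refine A.lef_sub (A.products_of_quadratic P hP hcomm (fun i => hsym A _ (hs i)) hli R d
      (fun j => (hd j).1) (fun j => (hd j).2) (fun i j h => (hR i j h).1)
      (fun i j h => (hR i j h).2) (fun X h1 h2 h3 => ?_) φ hφ)
    refine hspan X ((hcs A X).2 ⟨A.mem_EA.2 h1, fun u v => ?_, fun Q hQ => h3 Q (A.mem_EA.1 hQ)⟩)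
    linear_combination h2 u v
  · rintro A hs ⟨B, hanti, hB, hne⟩ m φ hφ
    refine A.lef_sub (A.products_of_surface hs B hB hanti (fun c hc => ?_) φ hφ)
    obtain ⟨u, v, huv⟩ := hne c
    apply huv
    unfold rf
    rw [AbVar.rf_eq, hc, LinearMap.smul_apply, LinearMap.smul_apply, smul_eq_mul]
    push_cast
    rfl

end Pool.Agent.Results.MP_bf54cf_ag.MaximalRealMult
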