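import Pool.Agent.Y102.V13

set_option autoImplicit false

/-!
# The period conjecture for cycles on all powers of an abelian variety: one class of codimension two
# decides, and it is a Hodge class if the Lie algebra of the Hodge group is rigid

Let `A` be ANY abelian variety over the field `ℚ̄` of algebraic numbers. As in `MaximalRealMult` the
de Rham-Betti classes on the powers of `A` are considered as multilinear forms `φ` with rational
values in `2m` variables in `H_1(A, ℚ)` (elements of `H^1(A) ^ {⊗ 2m} (m)`), and nothing is assumed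
about periods: `AbVar` is the description of an abelian variety over `ℚ̄` by theta functions.

`GPC ^ k (A ^ n)` for all `k` and `n` implies that all de Rham-Betti classes are Hodge classes, and
the Hodge conjecture and this statement together imply it. Let `𝔤` be the Lie algebra of the
endomorphisms of `H_1(A, ℚ)` that annihilate all classes which are at the same time Hodge classes and
de Rham-Betti classes (`InLie`). By the theorem of Deligne all Hodge classes are de Rham-Betti
classes, so that `𝔤` is the Lie algebra of the Hodge group of `A`. Let `𝔷` be its centre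
(`Central`). We prove that there is a de Rham-Betti class `Θ` in four variables (so of codimension two
on `A ^ 4`) such that:

1. If `Θ` is a Hodge class then so are all de Rham-Betti classes, in any number of variables, which
   are annihilated by `𝔷`; so all de Rham-Betti classes if `A` has no simple factor of type IV
   (then `𝔷 = 0`).
2. All de Rham-Betti classes are Hodge classes if and only if `Θ` is a Hodge class and all
   de Rham-Betti classes are annihilated by `𝔷` (`CentreCondition`).
3. `Θ` is a Hodge class if `𝔤` is rigid: every subalgebra over `ℚ` which acts semisimply on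
   `H_1(A, ℚ)` and has the same commutant as `𝔤` (`Full`) contains `[𝔤, 𝔤]`. This is a question about
   the Lie algebra `𝔤` and its representation only, there are no periods in it.
4. `𝔤` is rigid if it is of type `A_1` (`TypeA1`) or if `𝔤 ⊗ ℂ` is `sl(4)` and `H_1(A, ℂ)` is a sum of
   copies of `ℂ⁴` and of its dual, both of which occur (`TypeSL4`).
5. All de Rham-Betti classes are annihilated by `𝔷` if `𝔷` is rigid (`RigidCentre`): for each central
   element `X` such that the endomorphisms which commute with `[𝔤, 𝔤]` and with `X` commute with `𝔷`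
   (`Separates`), the relations `∑ x_k = 0` between the eigenvalues of `X` are satisfied by all
   `Y` in `𝔷` (`Dominates`).

So ALL de Rham-Betti classes on all powers of `A` are Hodge classes if `𝔤` is of one of the types in 4
and the centre is rigid (in particular if it is zero). Nothing is assumed.

The class `Θ` is the Casimir form of the Lie algebra `𝔥` of the endomorphisms that annihilate all
de Rham-Betti classes, for the trace form, which is shown to be nondegenerate.

In type `A_1` the algebra `𝔤 ⊗ ℂ` is the sum of its centre and of ideals `𝔰_i` isomorphic to `sl(2)`,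
and `H_1(A, ℂ)` is a sum of tensor products `W = ⊗_{i ∈ S(W)} ℂ²` of standard representations of some
of the `𝔰_i`, on which the centre acts by scalars. This is encoded by the homomorphisms `f i` from the
algebra of matrices of size two to the endomorphisms of `H_1(A, ℂ)`: `f i x` acts on the factor `ℂ²`
with index `i` of the `W` with `i ∈ S(W)`, and by `0` on the other `W`. Apart from this we assume that
for all `i ≠ k` there is a constituent `W` with `i, k ∈ S(W)`, or there are constituents `W ∋ i` and
`W' ∋ k` which are equal apart from the factors `i`, `k` (`S(W) \ i = S(W') \ k`, with the same action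
of the centre; this is the operator `N`, from `W'` to `W`). Examples are

* the fourfolds of Mumford with trivial endomorphisms and an exceptional Hodge class on the square
  (`n = 3`, `H_1(A, ℂ) = ℂ² ⊗ ℂ² ⊗ ℂ²`) and their generalizations for the totally real fields `F` of
  any degree (`H_1` is the corestriction of a quaternion algebra over `F`);
* abelian fourfolds with a definite quaternion algebra over `ℚ` (type III, `so(4) = sl(2) × sl(2)`,
  `H_1(A, ℂ) = (ℂ² ⊗ ℂ²)²`), which have exceptional Hodge classes; so by the theorem of Markman on the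
  Hodge conjecture for fourfolds of Weil type, these satisfy `GPC ^ k (A ^ n)` for all `n` and `k`;
* all products of elliptic curves (with or without complex multiplication), the abelian varieties
  with maximal real multiplication or totally indefinite quaternion multiplication, and their
  products;
* the Kuga-Satake varieties of K3 surfaces (and of hyperkähler varieties) with real multiplication by
  a totally real field `E` such that the transcendental lattice has rank three or four over `E`
  (`𝔤 ⊗ ℂ` is a sum of copies of `so(3)` or `so(4)`, acting by spin representations).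

Examples for `TypeSL4` are

* the abelian fourfolds of Weil type whose algebra of endomorphisms is an imaginary quadratic field,
  acting with signature `(2, 2)` (the Hodge group is `SU(2, 2)`); again by the theorem of Markman they
  satisfy `GPC ^ k (A ^ n)` for all `n` and `k`;
* the Kuga-Satake varieties of the K3 surfaces whose transcendental lattice has rank six (Picard
  number sixteen) and endomorphism algebra `ℚ` (`so(6) = sl(4)`, the spin representations are `ℂ⁴` and
  its dual).

The centre is rigid if it is zero, or if it is of dimension one and the commutant of `[𝔤, 𝔤]` is larger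
than that of `𝔤` (in type `A_1` this is always so, since the `W` are selfdual as representations of
`[𝔤, 𝔤]`); further for the products of elliptic curves (square roots of different square-free integers
are linearly independent), for the simple abelian surfaces with complex multiplication, and for the
simple abelian varieties with complex multiplication by a field `E` whose Galois group contains all
changes of sign (no nontrivial relation between the conjugates of an imaginary element of `E` is
stable under them).

The proof uses the theorem of Schneider and Lang (all subobjects of the de Rham-Betti object `H_1(A)`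
are abelian subvarieties, so that it is semisimple and its endomorphisms are those of `A`; so `𝔥` is a
full subalgebra of `𝔤`), and an analysis of the full subalgebras: in type `A_1` this is based on the
lemmas of Goursat and Ribet; for `sl(4)` on the theorem that a Lie algebra of endomorphisms of trace
zero of `ℂ⁴` which is irreducible and leaves no bilinear form invariant is `sl(4)` (`S4.Good.all`).
-/

open Module Matrix Pool.Agent.Y102 Pool.Agent.W516.DR Pool.Agent.H204R3.GP

noncomputable section

namespace Pool.Agent.Results.MP_bf54cf_ag.OneClassDecides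

variable {g : ℕ} (A : AbVar g)

/-- The multilinear forms in `2m` variables in the rational homology. -/
abbrev Form (m : ℕ) : Type := MultilinearMap ℚ (fun _ : Fin m × Fin 2 => A.H1) ℚ

/-- `φ` is a de Rham-Betti class in `H^1(A) ^ {⊗ 2m} (m)`. -/
def IsDRB {m : ℕ} (φ : Form A m) : Prop :=
  IsDeRhamBettiForm QBar A.dR (2 * Real.pi * Complex.I) m φ

/-- `φ` is a Hodge class in `H^1(A) ^ {⊗ 2m} (m)`. -/
def IsHodge {m : ℕ} (φ : Form A m) : Prop := IsHodgeTensor (A.per : A.H1 →+ (Fin g → ℂ)) φ

/-- The endomorphism `X` annihilates the form `φ` (as a derivation). -/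
def Annihilates {m : ℕ} (X : Module.End ℚ A.H1) (φ : Form A m) : Prop :=
  ∀ v, ∑ k, φ (Function.update v k (X (v k))) = 0

/-- `X` is in the Lie algebra `𝔤`: it annihilates all classes that are Hodge classes and
de Rham-Betti classes. -/
def InLie (X : Module.End ℚ A.H1) : Prop :=
  ∀ (m : ℕ) (φ : Form A m), IsHodge A φ → IsDRB A φ → Annihilates A X φ

/-- The endomorphisms of the rational homology. -/
abbrev EndQ (A : AbVar g) : Type := Module.End ℚ A.H1

/-- The endomorphisms `X` and `Y` commute. -/
def Comm (X Y : EndQ A) : Prop := X * Y = Y * X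

/-- The Lie bracket. -/
def Br (X Y : EndQ A) : EndQ A := X * Y - Y * X

/-- `X` is in the centre `𝔷` of the Lie algebra `𝔤`. -/
def Central (X : EndQ A) : Prop := InLie A X ∧ ∀ Y, InLie A Y → Comm A X Y

/-- The centre of the Lie algebra annihilates all de Rham-Betti classes. -/
def CentreCondition : Prop := ∀ X, Central A X →
  ∀ (m : ℕ) (φ : Form A m), IsDRB A φ → Annihilates A X φ

/-- The algebra of the endomorphisms of `H_1(A, ℂ)`, as matrices for the basis of the lattice. -/
abbrev EndC (_ : AbVar g) : Type := Matrix (Fin (2 * g)) (Fin (2 * g)) ℂ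

/-- The matrix of the extension of an endomorphism of `H_1(A, ℚ)` to `H_1(A, ℂ)`. -/
def toC (X : Module.End ℚ A.H1) : EndC A := Matrix.of fun i j => (X (Pi.single j 1) i : ℂ)

/-- The complex Lie algebra `𝔤 ⊗ ℂ`, acting on `H_1(A, ℂ)`. -/
def lieC : Submodule ℂ (EndC A) := Submodule.span ℂ {Y | ∃ X, InLie A X ∧ Y = toC A X}

/-- `Z` commutes with `𝔤 ⊗ ℂ`. -/
def Commutes (Z : EndC A) : Prop := ∀ Y ∈ lieC A, Z * Y = Y * Z

/-- The algebra of matrices of size two. -/
abbrev M2 : Type := Matrix (Fin 2) (Fin 2) ℂ

/-- The `f i` are commuting actions of the algebra of matrices of size two, not zero. -/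
def Actions {n : ℕ} (f : Fin n → M2 →ₗ[ℂ] EndC A) : Prop :=
  (∀ i a b, f i (a * b) = f i a * f i b) ∧
    (∀ i k, i ≠ k → ∀ a b, f i a * f k b = f k b * f i a) ∧ ∀ i, f i 1 ≠ 0

/-- The Lie algebra `𝔤 ⊗ ℂ` is the sum of the images of `sl(2)` under the `f i` and of its
centre. -/
def Generates {n : ℕ} (f : Fin n → M2 →ₗ[ℂ] EndC A) : Prop :=
  (∀ i x, x.trace = 0 → f i x ∈ lieC A) ∧
    ∀ X ∈ lieC A, ∃ x : Fin n → M2, (∀ i, (x i).trace = 0) ∧ Commutes A (X - ∑ i, f i (x i))

/-- The operator `N` maps some constituents on which `f k` acts to constituents on which `f i` acts,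
and respects the other actions and the action of the centre. -/
def Links {n : ℕ} (f : Fin n → M2 →ₗ[ℂ] EndC A) (i k : Fin n) (N : EndC A) : Prop :=
  f i 1 * N = N ∧ N * f k 1 = N ∧ (∀ l, l ≠ i → l ≠ k → ∀ a, N * f l a = f l a * N) ∧
    ∀ Z ∈ lieC A, Commutes A Z → N * Z = Z * N

/-- The Lie algebra `𝔤 ⊗ ℂ` is of type `A_1`. -/
def TypeA1 : Prop :=
  ∃ (n : ℕ) (f : Fin n → M2 →ₗ[ℂ] EndC A), Actions A f ∧ Generates A f ∧
    ∀ i k, i ≠ k → f i 1 * f k 1 ≠ 0 ∨ ∃ N, N ≠ 0 ∧ Links A f i k N

/-- The algebra of matrices of size four. -/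
abbrev M4 : Type := Matrix (Fin 4) (Fin 4) ℂ

/-- The map `f` is a homomorphism of algebras (without unit) and is not zero. -/
def IsHom (f : M4 →ₗ[ℂ] EndC A) : Prop := (∀ a b, f (a * b) = f a * f b) ∧ f 1 ≠ 0

/-- The images of the homomorphisms `f` and `f'` are orthogonal. -/
def Orthogonal (f f' : M4 →ₗ[ℂ] EndC A) : Prop := f 1 * f' 1 = 0 ∧ f' 1 * f 1 = 0

/-- The Lie algebra `𝔤 ⊗ ℂ` is `sl(4)`, acting by copies of the standard representation and of its
dual. -/
def TypeSL4 : Prop :=
  ∃ f f' : M4 →ₗ[ℂ] EndC A, IsHom A f ∧ IsHom A f' ∧ Orthogonal A f f' ∧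
    ∀ X, X ∈ lieC A ↔ ∃ x : M4, x.trace = 0 ∧ X = f x - f' xᵀ

/-- The subspaces of the space of endomorphisms. -/
abbrev SubQ (A : AbVar g) : Type := Submodule ℚ (EndQ A)

/-- The space `𝔥` is a Lie subalgebra of `𝔤`. -/
def Subalgebra (𝔥 : SubQ A) : Prop :=
  (∀ X ∈ 𝔥, InLie A X) ∧ ∀ X ∈ 𝔥, ∀ Y ∈ 𝔥, Br A X Y ∈ 𝔥

/-- The subspace `U` of `H_1(A, ℚ)` is stable under `𝔥`. -/
def Stable (𝔥 : SubQ A) (U : Submodule ℚ A.H1) : Prop := ∀ X ∈ 𝔥, ∀ u ∈ U, X u ∈ U

/-- The space `𝔥` acts semisimply on `H_1(A, ℚ)`. -/
def Semisimple (𝔥 : SubQ A) : Prop := ∀ U, Stable A 𝔥 U → ∃ U', Stable A 𝔥 U' ∧ IsCompl U U'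

/-- All endomorphisms which commute with `𝔥` commute with `𝔤`. -/
def SameCommutant (𝔥 : SubQ A) : Prop :=
  ∀ T, (∀ X ∈ 𝔥, Comm A X T) → ∀ X, InLie A X → Comm A X T

/-- The space `𝔥` is a Lie subalgebra of `𝔤` which acts semisimply and has the same commutant. -/
def Full (𝔥 : SubQ A) : Prop := Subalgebra A 𝔥 ∧ Semisimple A 𝔥 ∧ SameCommutant A 𝔥

/-- All full subalgebras contain `[𝔤, 𝔤]`. -/
def Rigid : Prop := ∀ 𝔥, Full A 𝔥 → ∀ X Y, InLie A X → InLie A Y → Br A X Y ∈ 𝔥

/-- The endomorphisms which commute with `[𝔤, 𝔤]` and with `X` commute with the centre. -/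
def Separates (X : EndQ A) : Prop := ∀ T,
  (∀ Y Z, InLie A Y → InLie A Z → Comm A T (Br A Y Z)) → Comm A T X →
    ∀ Z, Central A Z → Comm A T Z

/-- The relations between the eigenvalues of `X` hold for those of `Y`. -/
def Dominates (X Y : EndQ A) : Prop :=
  ∀ (r : ℕ) (v : Fin r → Fin (2 * g) → ℂ) (x y : Fin r → ℂ),
    (∀ k, v k ≠ 0 ∧ toC A X *ᵥ v k = x k • v k ∧ toC A Y *ᵥ v k = y k • v k) →
      ∑ k, x k = 0 → ∑ k, y k = 0

/-- The central elements that separate dominate the centre. -/
def RigidCentre : Prop :=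
  ∀ X Y, Central A X → Central A Y → Separates A X → Dominates A X Y

/-- **One class of codimension two.** -/
theorem result (g : ℕ) (A : AbVar g) : (∃ Θ : Form A 2, IsDRB A Θ ∧
    -- 1
    (IsHodge A Θ → ∀ (m : ℕ) (φ : Form A m), IsDRB A φ →
      (∀ X, Central A X → Annihilates A X φ) → IsHodge A φ) ∧
    -- 2
    ((∀ (m : ℕ) (φ : Form A m), IsDRB A φ → IsHodge A φ) ↔ IsHodge A Θ ∧ CentreCondition A) ∧
    -- 3
    (Rigid A → IsHodge A Θ)) ∧
    -- 4
    (TypeA1 A ∨ TypeSL4 A → Rigid A) ∧
    -- 5
    (RigidCentre A → CentreCondition A) := by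
  have hcen : ∀ X, X ∈ A.CN ↔ Central A X := fun X =>
    ⟨fun hX => ⟨hX.1, fun Y hY => (hX.2 Y hY).symm⟩, fun hX => ⟨hX.1, fun Y hY => (hX.2 Y hY).symm⟩⟩
  have h1 : IsHodge A A.cas → ∀ (m : ℕ) (φ : Form A m), IsDRB A φ →
      (∀ X, Central A X → Annihilates A X φ) → IsHodge A φ := fun h m φ hφ hz =>
    A.hodge_of_le (A.NA_le_of_cas h) hφ fun X hX => hz X ((hcen X).1 hX)
  have hfull : ∀ 𝔥 : Submodule ℚ (Module.End ℚ A.H1), Full A 𝔥 ↔ A.Full 𝔥 := fun 𝔥 =>
    ⟨fun ⟨⟨a, b⟩, c, d⟩ => ⟨a, b, c, d⟩, fun h => ⟨⟨h.le, h.br⟩, h.semi, h.comm⟩⟩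
  refine ⟨⟨A.cas, A.cas_drb, h1, ⟨fun h => ⟨h 2 _ A.cas_drb, fun X hX m φ hφ =>
    hX.1 m φ (h m φ hφ) hφ⟩, fun ⟨h2, h3⟩ m φ hφ => h1 h2 m φ hφ fun X hX => h3 X hX m φ hφ⟩,
    fun hr => AbVar.cas_hodge_of_rigid fun X hX Y hY =>
      hr A.LA ((hfull _).2 A.full_LA) X Y hX hY⟩, ?_, ?_⟩
  · rintro (⟨n, f, ⟨e1, e2, e3⟩, ⟨e4, e5⟩, e6⟩ | ⟨f, f', ⟨e1, e3⟩, ⟨e2, e4⟩, ⟨e5, e6⟩, e7⟩) 𝔥 h𝔥 X Y hX hY
    · refine ((hfull 𝔥).1 h𝔥).of_typeA' (φ := f) ⟨e1, e2, e3, e4, fun X hX => ?_, e6⟩ hX hY
      obtain ⟨x, hx, hc⟩ := e5 X hX
      exact ⟨x, hx, hc⟩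
    · refine ((hfull 𝔥).1 h𝔥).of_typeD' (φ := f) (ψ := f') ⟨e1, e2, e3, e4, e5, e6,
        fun x hx => (e7 _).2 ⟨x, hx, rfl⟩, fun X hX => (e7 X).1 hX⟩ (A.NA_bracket hX hY)
  · intro hr X hX m φ hφ
    refine A.centre_le (fun X hX hs Y hY => dom_of_matrix ?_) ((hcen X).2 hX) m φ hφ
    exact hr X Y ((hcen X).1 hX) ((hcen Y).1 hY) fun T hT hTX Z hZ =>
      hs T (fun Y hY Z hZ => hT Y Z hY hZ) hTX Z ((hcen Z).2 hZ)

end Pool.Agent.Results.MP_bf54cf_ag.OneClassDecides
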