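import Pool.Agent.Y133.Half.Per

/-!
# The index of the de Rham-Betti classes on the powers of a variety

For every smooth projective variety `X` over the field of algebraic numbers, the quotient of the
dimension of the space of the de Rham-Betti classes of `X^n` and of the rank of the group of the
cycles on `X^n` modulo numerical equivalence converges to an element `N ≥ 1` of `ℕ ∪ {∞}`. We have
`N = 1` if and only if the Grothendieck period conjecture holds and homological and numerical
equivalence agree for all powers of `X`; and if `N` is finite then homological and numerical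
equivalence agree for all powers of `X`, and all de Rham-Betti classes on all powers are generated
by the classes of cycles and at most `N - 1` de Rham-Betti classes, under algebraic correspondences.
-/

open CategoryTheory AlgebraicGeometry Filter Topology

open scoped ENNReal

universe u v

namespace Pool.Agent.Results.MP_bf54cf_ag.PowersIndex

open Pool.Agent.H914 Pool.Agent.H914.VarClass Pool.Agent.H914.VarClass.Obj
  Pool.Agent.H914.WeilCohomology Pool.Agent.Y133.Per
open Pool.Agent.Y129 (pw)
open Pool.Agent.Y133.Half (cycRank)

variable {k : Type u} [Field k] {𝒱 : VarClass k} {ops : CycleOps 𝒱}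

theorem result (W : WeilCohomology.{u, v} ops) [Algebra W.K ℂ] {F : Subfield ℂ} (D : DeRham W F)
    (X : 𝒱.Obj) [Nontrivial (W.H X)] :
    ∃ N : ℕ∞, 1 ≤ N ∧
      Tendsto (fun n => (drbDim D (pw X n) : ℝ≥0∞) / cycRank ops (pw X n)) atTop
        (𝓝 (N : ℝ≥0∞)) ∧
      (∀ n, (drbDim D (pw X (2 * n + 1)) : ℝ≥0∞) / cycRank ops (pw X (2 * n + 1)) ≤
        (N : ℝ≥0∞)) ∧
      (N = 1 ↔ ∀ n, (∀ j, GPC D (pw X n) j) ∧ HomEqNum W (pw X n)) ∧
      (N ≠ ⊤ → (∀ n, HomEqNum W (pw X n)) ∧ DRBGenerated D X N) :=
  drb_index D X

end Pool.Agent.Results.MP_bf54cf_ag.PowersIndex
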